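import Pool.Agent.Helper60.KS.St

/-! KC-6: SLemma (6.7) (project KSZ, MP_768c9c_nt). -/

set_option autoImplicit false
open Filter Topology
open scoped Classical ComplexConjugate

namespace Pool.Agent.Helper1.KC

open Pool.Agent.Helper60.KS

/-- unimodular factor -/
noncomputable def eta (z : ℂ) : ℂ := if z = 0 then 0 else conj z / ‖z‖

theorem norm_eta_le (z : ℂ) : ‖eta z‖ ≤ 1 := by
  unfold eta
  split_ifs with h
  · simp
  · rw [norm_div, Complex.norm_conj, Complex.norm_real, norm_norm, div_self (norm_ne_zero_iff.2 h)]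

theorem eta_mul (z : ℂ) : eta z * z = ‖z‖ := by
  unfold eta
  split_ifs with h
  · simp [h]
  · have h1 : (‖z‖ : ℂ) ≠ 0 := by exact_mod_cast norm_ne_zero_iff.2 h
    rw [div_mul_eq_mul_div, div_eq_iff h1, mul_comm (conj z), Complex.mul_conj']
    ring

/-- first step: `(v |U|)^2 ≤ c0^2 |Z| ∑ |B(ρ)|^2` -/
theorem step1 (Z : Finset ℂ) (c : ℂ → ℂ) (U : Finset ℝ) (c0 v : ℝ) (hv : 0 ≤ v)
    (hc : ∀ ρ ∈ Z, ‖c ρ‖ ≤ c0)
    (hU : ∀ u ∈ U, v ≤ ‖∑ ρ ∈ Z, c ρ * Complex.exp ((ρ - 1) * (u : ℂ))‖) :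
    ((U.card : ℝ) * v) ^ 2 ≤ c0 ^ 2 * (Z.card * ∑ ρ ∈ Z, ‖∑ u ∈ U,
      eta (∑ ρ ∈ Z, c ρ * Complex.exp ((ρ - 1) * (u : ℂ))) * Complex.exp ((ρ - 1) * (u : ℂ))‖ ^ 2) := by
  set S : ℝ → ℂ := fun u => ∑ ρ ∈ Z, c ρ * Complex.exp ((ρ - 1) * (u : ℂ)) with hS
  set Bf : ℂ → ℂ := fun ρ => ∑ u ∈ U, eta (S u) * Complex.exp ((ρ - 1) * (u : ℂ)) with hB
  have h1 : (U.card : ℝ) * v ≤ ∑ u ∈ U, ‖S u‖ := by
    calc (U.card : ℝ) * v = ∑ u ∈ U, v := by rw [Finset.sum_const, nsmul_eq_mul]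
      _ ≤ _ := Finset.sum_le_sum hU
  have h2 : ((∑ u ∈ U, ‖S u‖ : ℝ) : ℂ) = ∑ ρ ∈ Z, c ρ * Bf ρ := by
    push_cast
    calc ∑ u ∈ U, (‖S u‖ : ℂ) = ∑ u ∈ U, ∑ ρ ∈ Z, eta (S u) * (c ρ * Complex.exp ((ρ - 1) * (u : ℂ))) := by
          refine Finset.sum_congr rfl (fun u _ => ?_)
          rw [← Finset.mul_sum, ← eta_mul]
      _ = ∑ ρ ∈ Z, ∑ u ∈ U, eta (S u) * (c ρ * Complex.exp ((ρ - 1) * (u : ℂ))) := Finset.sum_comm
      _ = _ := by
          refine Finset.sum_congr rfl (fun ρ _ => ?_)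
          rw [hB, Finset.mul_sum]
          exact Finset.sum_congr rfl (fun u _ => by ring)
  have h3 : ∑ u ∈ U, ‖S u‖ ≤ c0 * ∑ ρ ∈ Z, ‖Bf ρ‖ := by
    have hnn : 0 ≤ ∑ u ∈ U, ‖S u‖ := Finset.sum_nonneg (fun _ _ => norm_nonneg _)
    calc ∑ u ∈ U, ‖S u‖ = ‖((∑ u ∈ U, ‖S u‖ : ℝ) : ℂ)‖ := by
          rw [Complex.norm_real, Real.norm_of_nonneg hnn]
      _ = ‖∑ ρ ∈ Z, c ρ * Bf ρ‖ := by rw [h2]
      _ ≤ ∑ ρ ∈ Z, ‖c ρ * Bf ρ‖ := norm_sum_le _ _
      _ ≤ ∑ ρ ∈ Z, c0 * ‖Bf ρ‖ := by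
          refine Finset.sum_le_sum (fun ρ hρ => ?_)
          rw [norm_mul]
          exact mul_le_mul_of_nonneg_right (hc ρ hρ) (norm_nonneg _)
      _ = _ := by rw [Finset.mul_sum]
  have h4 : (∑ ρ ∈ Z, ‖Bf ρ‖) ^ 2 ≤ Z.card * ∑ ρ ∈ Z, ‖Bf ρ‖ ^ 2 := sq_sum_le_card_mul_sum_sq
  calc ((U.card : ℝ) * v) ^ 2 ≤ (c0 * ∑ ρ ∈ Z, ‖Bf ρ‖) ^ 2 :=
        pow_le_pow_left₀ (by positivity) (h1.trans h3) 2
    _ = c0 ^ 2 * (∑ ρ ∈ Z, ‖Bf ρ‖) ^ 2 := by ring
    _ ≤ _ := by gcongr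

theorem cpow_eq_exp_log {n : ℕ} (hn : 0 < n) (s : ℂ) :
    (n : ℂ) ^ (-s) = Complex.exp (-(Real.log n : ℂ) * s) := by
  have hn' : (n : ℂ) ≠ 0 := by exact_mod_cast hn.ne'
  rw [Complex.cpow_def_of_ne_zero hn', ← Complex.ofReal_natCast, ← Complex.ofReal_log (by positivity)]
  congr 1
  ring

/-- the product `B(ρ) G(ρ)` as one exponential sum -/
theorem prod_eq (U : Finset ℝ) (e : ℝ → ℂ) (g : ℕ → ℂ) (Q h : ℕ) (s : ℂ) :
    (∑ u ∈ U, e u * Complex.exp ((s - 1) * (u : ℂ))) * DP g Q h s =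
      ∑ j ∈ U ×ˢ Finset.Ioc Q (h * Q), (e j.1 * g j.2 * Complex.exp (-(j.1 : ℂ))) *
        Complex.exp (((j.1 - Real.log j.2 : ℝ) : ℂ) * s) := by
  unfold DP
  rw [Finset.sum_mul_sum, Finset.sum_product]
  refine Finset.sum_congr rfl (fun u _ => Finset.sum_congr rfl (fun n hn => ?_))
  rw [Finset.mem_Ioc] at hn
  rw [cpow_eq_exp_log (by omega)]
  have : Complex.exp (((u - Real.log n : ℝ) : ℂ) * s) =
      Complex.exp ((u : ℂ) * s) * Complex.exp (-(Real.log n : ℂ) * s) := by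
    rw [← Complex.exp_add]; congr 1; push_cast; ring
  rw [this]
  have h2 : Complex.exp ((s - 1) * (u : ℂ)) = Complex.exp (-(u : ℂ)) * Complex.exp ((u : ℂ) * s) := by
    rw [← Complex.exp_add]; congr 1; ring
  rw [h2]
  ring

/-- size of one term on the line `σ` -/
theorem term_le {X b b' r σ u : ℝ} {Q h n : ℕ} (hX : 8 ≤ X) (hr : r = 1 / Real.log X)
    (hr2 : r ≤ 1 / 2) (hr0 : 0 < r)
    (hQ1 : 1 ≤ Q) (hh : 1 ≤ h) (hQX : (Q : ℝ) ≤ X ^ 2) (hb : 0 ≤ b) (hb1 : b' ≤ 1)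
    (hσ1 : b - r ≤ σ) (hσ2 : σ ≤ b' + r) (hu1 : Real.log X ≤ u) (hu2 : u ≤ Real.log X + 1)
    (hn1 : Q < n) (hn2 : n ≤ h * Q) :
    Real.exp (-u) * Real.exp (σ * (u - Real.log n)) ≤
      (Real.exp 2 * X ^ (b' - 1)) * (Real.exp 2 * h * (Q : ℝ) ^ (-b)) := by
  have hX0 : 0 < X := by linarith
  have hlX : 0 < Real.log X := Real.log_pos (by linarith)
  have hQr : (1 : ℝ) ≤ Q := by exact_mod_cast hQ1
  have hhr : (1 : ℝ) ≤ h := by exact_mod_cast hh
  have hn0 : (0 : ℝ) < n := by exact_mod_cast (by omega : 0 < n)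
  have hn1r : (Q : ℝ) ≤ n := by exact_mod_cast hn1.le
  have hn2r : (n : ℝ) ≤ h * Q := by exact_mod_cast hn2
  have hrl : r * Real.log X = 1 := by rw [hr]; field_simp
  have hlogn : 0 ≤ Real.log n := Real.log_nonneg (by linarith)
  have e1 : Real.exp (-u) * Real.exp (σ * (u - Real.log n)) =
      Real.exp ((σ - 1) * u) * Real.exp (-σ * Real.log n) := by
    rw [← Real.exp_add, ← Real.exp_add]; congr 1; ring
  rw [e1]
  have hX2 : Real.exp 2 * X ^ (b' - 1) = Real.exp (2 + (b' - 1) * Real.log X) := by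
    rw [Real.exp_add, Real.rpow_def_of_pos hX0, mul_comm (Real.log X)]
  have hQ2 : Real.exp 2 * h * (Q : ℝ) ^ (-b) = Real.exp (2 + Real.log h + (-b) * Real.log Q) := by
    rw [Real.exp_add, Real.exp_add, Real.exp_log (by linarith), Real.rpow_def_of_pos (by linarith),
      mul_comm (Real.log Q)]
  rw [hX2, hQ2]
  have hQlog : 0 ≤ Real.log Q := Real.log_nonneg hQr
  have hhlog : 0 ≤ Real.log h := Real.log_nonneg hhr
  have hlogn2 : Real.log n ≤ Real.log h + Real.log Q := by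
    rw [← Real.log_mul (by linarith) (by linarith)]
    exact Real.log_le_log hn0 hn2r
  have hlogn3 : Real.log Q ≤ Real.log n := Real.log_le_log (by linarith) hn1r
  have hlogQX : Real.log Q ≤ 2 * Real.log X := by
    have := Real.log_le_log (by linarith) hQX
    rwa [Real.log_pow] at this
  apply mul_le_mul
  · apply Real.exp_le_exp.2
    have h1 : (σ - 1) * u ≤ (b' + r - 1) * u := by
      apply mul_le_mul_of_nonneg_right _ (by linarith); linarith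
    have h2 : (b' - 1) * u ≤ (b' - 1) * Real.log X := by
      apply mul_le_mul_of_nonpos_left hu1; linarith
    have h3 : r * u ≤ r * (Real.log X + 1) := mul_le_mul_of_nonneg_left hu2 hr0.le
    nlinarith
  · apply Real.exp_le_exp.2
    have h1 : -σ * Real.log n ≤ (r - b) * Real.log n := by
      apply mul_le_mul_of_nonneg_right _ hlogn; linarith
    have h2 : r * Real.log n ≤ r * (Real.log h + Real.log Q) := mul_le_mul_of_nonneg_left hlogn2 hr0.le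
    have h3 : b * Real.log Q ≤ b * Real.log n := mul_le_mul_of_nonneg_left hlogn3 hb
    have h4 : r * Real.log Q ≤ r * (2 * Real.log X) := mul_le_mul_of_nonneg_left hlogQX hr0.le
    have h5 : r * Real.log h ≤ 1 * Real.log h := mul_le_mul_of_nonneg_right (by linarith) hhlog
    nlinarith
  · positivity
  · positivity

theorem log_sq_le {ε : ℝ} (hε : 0 < ε) {X : ℝ} (hX : 1 ≤ X) :
    Real.log X ^ 2 ≤ (4 / ε) ^ 2 * X ^ (ε / 2) := by
  have hX0 : 0 < X := by linarith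
  have h1 : Real.log X ≤ X ^ (ε / 4) / (ε / 4) := Real.log_le_rpow_div hX0.le (by positivity)
  have h0 : 0 ≤ Real.log X := Real.log_nonneg hX
  calc Real.log X ^ 2 ≤ (X ^ (ε / 4) / (ε / 4)) ^ 2 := pow_le_pow_left₀ h0 h1 2
    _ = (4 / ε) ^ 2 * (X ^ (ε / 4)) ^ 2 := by field_simp
    _ = _ := by
        rw [← Real.rpow_natCast (X ^ (ε / 4)), ← Real.rpow_mul hX0.le]
        congr 2; push_cast; ring

theorem log8 : 2 ≤ Real.log 8 := by
  have : Real.log 8 = 3 * Real.log 2 := by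
    rw [show (8 : ℝ) = 2 ^ 3 by norm_num, Real.log_pow]; norm_num
  rw [this]; linarith [Real.log_two_gt_d9]

theorem sLemma : DiscMV → TwoWalk → SLemma := by
  intro hD hT h ε hh hε
  obtain ⟨C1, hC1, h1⟩ := hD
  obtain ⟨C2, hC2, h2⟩ := hT h (ε / 2) hh (by positivity)
  refine ⟨C1 * (4 / ε) ^ 2 * (Real.exp 2 * (Real.exp 2 * h)) ^ 2 * C2, by positivity, ?_⟩
  intro X T b b' B V c0 v Z c g Q U hX hT1 hTX hQ1 hQX hb hbb' hb'b hb'1 hV hB hc0 hv hg hZ1 hZ2 hZ3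
    hc hU1 hU2 hU3
  have hX0 : 0 < X := by linarith
  have hlX : 2 ≤ Real.log X := log8.trans (Real.log_le_log (by norm_num) hX)
  set r : ℝ := 1 / Real.log X with hr
  have hr0 : 0 < r := by positivity
  have hr2 : r ≤ 1 / 2 := one_div_le_one_div_of_le (by norm_num) hlX
  set e : ℝ → ℂ := fun u => eta (∑ ρ ∈ Z, c ρ * Complex.exp ((ρ - 1) * (u : ℂ))) with he
  set Bf : ℂ → ℂ := fun ρ => ∑ u ∈ U, e u * Complex.exp ((ρ - 1) * (u : ℂ)) with hBf
  have s1 := step1 Z c U c0 v hv hc hU3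
  set D : ℝ := B * ((Real.exp 2 * X ^ (b' - 1)) * (Real.exp 2 * h * (Q : ℝ) ^ (-b))) with hDdef
  have hD0 : 0 ≤ D := by positivity
  have key := h1 (ℝ × ℕ) (U ×ˢ Finset.Ioc Q (h * Q))
    (fun j => e j.1 * g j.2 * Complex.exp (-(j.1 : ℂ))) (fun j => j.1 - Real.log j.2)
    T b b' r (D ^ 2 * ET U T Q (h * Q)) Z hT1 hr0 hr2 hbb' hb'b hZ1 hZ2 (by
      intro σ hσ1 hσ2
      have hterm : ∀ j ∈ U ×ˢ Finset.Ioc Q (h * Q),
          ‖e j.1 * g j.2 * Complex.exp (-(j.1 : ℂ))‖ * Real.exp (σ * (j.1 - Real.log j.2)) ≤ D := by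
        intro j hj
        rw [Finset.mem_product, Finset.mem_Ioc] at hj
        have hu := hU1 j.1 hj.1
        have ht := term_le hX hr hr2 hr0 hQ1 hh hQX hb hb'1 hσ1 hσ2 hu.1 hu.2 hj.2.1 hj.2.2
        rw [norm_mul, norm_mul]
        have e1 : ‖Complex.exp (-(j.1 : ℂ))‖ = Real.exp (-j.1) := by
          rw [Complex.norm_exp]; simp
        rw [e1]
        have e2 : ‖e j.1‖ ≤ 1 := norm_eta_le _
        calc ‖e j.1‖ * ‖g j.2‖ * Real.exp (-j.1) * Real.exp (σ * (j.1 - Real.log j.2)) =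
              (‖e j.1‖ * ‖g j.2‖) * (Real.exp (-j.1) * Real.exp (σ * (j.1 - Real.log j.2))) := by ring
          _ ≤ (1 * B) * ((Real.exp 2 * X ^ (b' - 1)) * (Real.exp 2 * h * (Q : ℝ) ^ (-b))) := by
              have := hg j.2
              gcongr
          _ = D := by rw [one_mul]
      calc ∑ j ∈ U ×ˢ Finset.Ioc Q (h * Q), ∑ k ∈ U ×ˢ Finset.Ioc Q (h * Q),
            (if |(j.1 - Real.log j.2) - (k.1 - Real.log k.2)| ≤ 1 / T then
              ‖e j.1 * g j.2 * Complex.exp (-(j.1 : ℂ))‖ * ‖e k.1 * g k.2 * Complex.exp (-(k.1 : ℂ))‖ *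
              Real.exp (σ * ((j.1 - Real.log j.2) + (k.1 - Real.log k.2))) else 0) ≤
            ∑ j ∈ U ×ˢ Finset.Ioc Q (h * Q), ∑ k ∈ U ×ˢ Finset.Ioc Q (h * Q),
            (if |(j.1 - Real.log j.2) - (k.1 - Real.log k.2)| ≤ 1 / T then D ^ 2 else 0) := by
            refine Finset.sum_le_sum (fun j hj => Finset.sum_le_sum (fun k hk => ?_))
            split_ifs
            · have hj' := hterm j hj
              have hk' := hterm k hk
              have e3 : Real.exp (σ * ((j.1 - Real.log j.2) + (k.1 - Real.log k.2))) =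
                  Real.exp (σ * (j.1 - Real.log j.2)) * Real.exp (σ * (k.1 - Real.log k.2)) := by
                rw [← Real.exp_add]; congr 1; ring
              rw [e3]
              calc _ = (‖e j.1 * g j.2 * Complex.exp (-(j.1 : ℂ))‖ * Real.exp (σ * (j.1 - Real.log j.2))) *
                    (‖e k.1 * g k.2 * Complex.exp (-(k.1 : ℂ))‖ * Real.exp (σ * (k.1 - Real.log k.2))) := by
                    ring
                _ ≤ D * D := mul_le_mul hj' hk' (by positivity) hD0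
                _ = D ^ 2 := by ring
            · exact le_rfl
        _ = D ^ 2 * ((((U ×ˢ Finset.Ioc Q (h * Q)) ×ˢ (U ×ˢ Finset.Ioc Q (h * Q))).filter
              (fun p => |(p.1.1 - Real.log p.1.2) - (p.2.1 - Real.log p.2.2)| ≤ 1 / T)).card : ℝ) := by
            rw [← Finset.sum_product', ← Finset.sum_filter, Finset.sum_const, nsmul_eq_mul, mul_comm]
        _ ≤ _ := by
            apply mul_le_mul_of_nonneg_left _ (by positivity)
            unfold ET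
            have : (((U ×ˢ Finset.Ioc Q (h * Q)) ×ˢ (U ×ˢ Finset.Ioc Q (h * Q))).filter
              (fun p => |(p.1.1 - Real.log p.1.2) - (p.2.1 - Real.log p.2.2)| ≤ 1 / T)).card ≤
              (((U ×ˢ Finset.Icc Q (h * Q)) ×ˢ (U ×ˢ Finset.Icc Q (h * Q))).filter
              (fun p => |(p.1.1 - Real.log p.1.2) - (p.2.1 - Real.log p.2.2)| ≤ 1 / T)).card := by
              apply Finset.card_le_card
              apply Finset.filter_subset_filter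
              have : Finset.Ioc Q (h * Q) ⊆ Finset.Icc Q (h * Q) := Finset.Ioc_subset_Icc_self
              exact Finset.product_subset_product (Finset.product_subset_product_right this)
                (Finset.product_subset_product_right this)
            exact_mod_cast this)
  have hBG : V ^ 2 * ∑ ρ ∈ Z, ‖Bf ρ‖ ^ 2 ≤ C1 / r ^ 2 * T * (D ^ 2 * ET U T Q (h * Q)) := by
    refine le_trans ?_ key
    rw [Finset.mul_sum]
    refine Finset.sum_le_sum (fun ρ hρ => ?_)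
    rw [← prod_eq U e g Q h ρ, norm_mul, mul_pow, mul_comm (V ^ 2)]
    have := hZ3 ρ hρ
    gcongr
  have hET := h2 X T (Real.log X) U Q (by linarith) hT1 hTX hQ1 hQX hU1 hU2
  set R : ℝ := U.card * Q * (1 + ((U.card : ℝ) ^ 3 / T) ^ (1/4 : ℝ)) +
    (U.card : ℝ) ^ 2 * (Q : ℝ) ^ 2 / T with hR
  have hR0 : 0 ≤ R := by positivity
  have hlog := log_sq_le hε (X := X) (by linarith)
  have hr2' : 1 / r ^ 2 = Real.log X ^ 2 := by rw [hr]; field_simp
  have hDsq : D ^ 2 = B ^ 2 * (Real.exp 2 * (Real.exp 2 * h)) ^ 2 * X ^ (2 * (b' - 1)) * (Q : ℝ) ^ (-2 * b) := by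
    have hQ0 : (0 : ℝ) < Q := by exact_mod_cast hQ1
    have e1 : X ^ (2 * (b' - 1)) = (X ^ (b' - 1)) ^ 2 := by
      rw [← Real.rpow_natCast (X ^ (b' - 1)), ← Real.rpow_mul hX0.le]; congr 1; push_cast; ring
    have e2 : (Q : ℝ) ^ (-2 * b) = ((Q : ℝ) ^ (-b)) ^ 2 := by
      rw [← Real.rpow_natCast ((Q : ℝ) ^ (-b)), ← Real.rpow_mul hQ0.le]; congr 1; push_cast; ring
    rw [e1, e2, hDdef]; ring
  have hXε : X ^ ε = X ^ (ε / 2) * X ^ (ε / 2) := by
    rw [← Real.rpow_add hX0]; congr 1; ring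
  calc (U.card : ℝ) ^ 2 * v ^ 2 * V ^ 2 = ((U.card : ℝ) * v) ^ 2 * V ^ 2 := by ring
    _ ≤ (c0 ^ 2 * (Z.card * ∑ ρ ∈ Z, ‖Bf ρ‖ ^ 2)) * V ^ 2 := by gcongr
    _ = c0 ^ 2 * Z.card * (V ^ 2 * ∑ ρ ∈ Z, ‖Bf ρ‖ ^ 2) := by ring
    _ ≤ c0 ^ 2 * Z.card * (C1 / r ^ 2 * T * (D ^ 2 * ET U T Q (h * Q))) := by gcongr
    _ = c0 ^ 2 * Z.card * (C1 * (1 / r ^ 2) * T * (D ^ 2 * ET U T Q (h * Q))) := by ring
    _ = c0 ^ 2 * Z.card * (C1 * Real.log X ^ 2 * T * (D ^ 2 * ET U T Q (h * Q))) := by rw [hr2']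
    _ ≤ c0 ^ 2 * Z.card * (C1 * ((4 / ε) ^ 2 * X ^ (ε / 2)) * T * (D ^ 2 * (C2 * X ^ (ε / 2) * R))) := by
        gcongr
    _ = _ := by rw [hDsq, hXε]; ring

end Pool.Agent.Helper1.KC
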